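import Mathlib

set_option autoImplicit false

namespace Pool.Agent.H.MP_d30538_al

@[ext] structure W where
  t : ℤ → ℚ
  e : ℤ → ℤ
  s : ℤ

def sg (n : ℤ) : ℚ := (-1) ^ n

theorem sg_add (m n : ℤ) : sg (m + n) = sg m * sg n := zpow_add₀ (by norm_num) _ _
theorem sg_zero : sg 0 = 1 := zpow_zero _
theorem sg_one : sg 1 = -1 := zpow_one _
theorem sg_even {n : ℤ} (h : Even n) : sg n = 1 := h.neg_one_zpow
theorem sg_cases (n : ℤ) : sg n = 1 ∨ sg n = -1 :=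
  (Int.even_or_odd n).imp (fun h => h.neg_one_zpow) fun h => h.neg_one_zpow
theorem sg_neg (n : ℤ) : sg (-n) = sg n := by
  rcases Int.even_or_odd n with h | h
  · rw [sg_even h, sg_even h.neg]
  · rw [sg, sg, h.neg_one_zpow, h.neg.neg_one_zpow]
theorem sg_sq (n : ℤ) : sg n * sg n = 1 := by rcases sg_cases n with h | h <;> simp [h]

instance : Mul W :=
  ⟨fun g h => ⟨fun i => g.t i + sg (g.e i) * h.t (i - g.s), fun i => g.e i + h.e (i - g.s),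
    g.s + h.s⟩⟩
instance : One W := ⟨⟨0, 0, 0⟩⟩
instance : Inv W :=
  ⟨fun g => ⟨fun i => -(sg (g.e (i + g.s)) * g.t (i + g.s)), fun i => -g.e (i + g.s), -g.s⟩⟩

@[simp] theorem mul_t (g h : W) (i : ℤ) : (g * h).t i = g.t i + sg (g.e i) * h.t (i - g.s) := rfl
@[simp] theorem mul_e (g h : W) (i : ℤ) : (g * h).e i = g.e i + h.e (i - g.s) := rfl
@[simp] theorem mul_s (g h : W) : (g * h).s = g.s + h.s := rfl
@[simp] theorem one_t (i : ℤ) : (1 : W).t i = 0 := rfl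
@[simp] theorem one_e (i : ℤ) : (1 : W).e i = 0 := rfl
@[simp] theorem one_s : (1 : W).s = 0 := rfl
@[simp] theorem inv_t (g : W) (i : ℤ) : g⁻¹.t i = -(sg (g.e (i + g.s)) * g.t (i + g.s)) := rfl
@[simp] theorem inv_e (g : W) (i : ℤ) : g⁻¹.e i = -g.e (i + g.s) := rfl
@[simp] theorem inv_s (g : W) : g⁻¹.s = -g.s := rfl

instance : Group W := Group.ofLeftAxioms
  (fun a b c => by
    ext i
    · simp only [mul_t, mul_e, mul_s, sg_add, sub_sub]; ring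
    · simp only [mul_e, mul_s, sub_sub]; ring
    · simp only [mul_s]; ring)
  (fun a => by ext i <;> simp [sg_zero])
  (fun a => by ext i <;> simp [sg_neg])

theorem conj_t (h g : W) (hs : g.s = 0) (he : ∀ i, Even (g.e i)) (i : ℤ) :
    (h * g * h⁻¹).t i = sg (h.e i) * g.t (i - h.s) := by
  simp only [mul_t, mul_e, mul_s, inv_t, hs, add_zero, sub_add_cancel, sg_add, sg_even (he _),
    mul_one, mul_neg, ← mul_assoc, sg_sq]
  ring

theorem conj_e (h g : W) (hs : g.s = 0) (i : ℤ) : (h * g * h⁻¹).e i = g.e (i - h.s) := by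
  simp [hs]

def S1 : Subgroup W where
  carrier := {g | g.s = 0}
  mul_mem' := fun {a b} ha hb => by simp_all
  one_mem' := rfl
  inv_mem' := fun {a} ha => by simp_all

instance : S1.Normal := ⟨fun g (hg : g.s = 0) h => show _ = 0 by simp [hg]⟩

def S2 : Subgroup W where
  carrier := {g | g.s = 0 ∧ ∀ i, 4 ∣ g.e i}
  mul_mem' := fun {a b} ha hb => ⟨by simp [ha.1, hb.1], fun i => (ha.2 _).add (hb.2 _)⟩
  one_mem' := ⟨rfl, fun _ => by simp⟩
  inv_mem' := fun {a} ha => ⟨by simp [ha.1], fun i => (ha.2 _).neg_right⟩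

instance : S2.Normal := ⟨fun g hg h => ⟨by simp [hg.1], fun i => by
  rw [conj_e _ _ hg.1]; exact hg.2 _⟩⟩

theorem S2.even {g : W} (h : g ∈ S2) (i : ℤ) : Even (g.e i) := by
  obtain ⟨k, hk⟩ := h.2 i
  exact ⟨2 * k, by omega⟩

def S3 : Subgroup W where
  carrier := {g | g.s = 0 ∧ ∀ i, ∃ m k : ℤ, g.t i = m ∧ g.e i = 2 * m + 4 * k}
  mul_mem' := fun {a b} ha hb => ⟨by simp [ha.1, hb.1], fun i => by
    obtain ⟨m, k, a1, a2⟩ := ha.2 i
    obtain ⟨m', k', b1, b2⟩ := hb.2 i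
    refine ⟨m + m', k + k', ?_, ?_⟩
    · simp [ha.1, a1, b1, sg_even (show Even (a.e i) from ⟨m + 2 * k, by omega⟩)]
    · simp only [mul_e, ha.1, sub_zero]; omega⟩
  one_mem' := ⟨rfl, fun _ => ⟨0, 0, by simp⟩⟩
  inv_mem' := fun {a} ha => ⟨by simp [ha.1], fun i => by
    obtain ⟨m, k, a1, a2⟩ := ha.2 i
    refine ⟨-m, -k, ?_, ?_⟩
    · simp [ha.1, a1, sg_even (show Even (a.e i) from ⟨m + 2 * k, by omega⟩)]
    · simp only [inv_e, ha.1, add_zero]; omega⟩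

theorem S3.even {g : W} (h : g ∈ S3) (i : ℤ) : Even (g.e i) := by
  obtain ⟨m, k, -, hk⟩ := h.2 i
  exact ⟨m + 2 * k, by omega⟩

instance : S3.Normal := ⟨fun g hg h => ⟨by simp [hg.1], fun i => by
  rw [conj_e _ _ hg.1, conj_t _ _ hg.1 (S3.even hg)]
  obtain ⟨m, k, a1, a2⟩ := hg.2 (i - h.s)
  rcases sg_cases (h.e i) with e | e
  · exact ⟨m, k, by simp [e, a1], a2⟩
  · exact ⟨-m, k + m, by simp [e, a1], by omega⟩⟩⟩

def S0 : Subgroup W where
  carrier := {g | g.s = 0 ∧ ∀ i, g.e i = 0 ∧ ∃ m : ℤ, g.t i = 4 * m}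
  mul_mem' := fun {a b} ha hb => ⟨by simp [ha.1, hb.1], fun i => by
    obtain ⟨a1, m, a2⟩ := ha.2 i
    obtain ⟨b1, m', b2⟩ := hb.2 i
    exact ⟨by simp [ha.1, a1, b1], m + m', by simp [ha.1, a1, a2, b2, sg_zero, mul_add]⟩⟩
  one_mem' := ⟨rfl, fun _ => ⟨rfl, 0, by simp⟩⟩
  inv_mem' := fun {a} ha => ⟨by simp [ha.1], fun i => by
    obtain ⟨a1, m, a2⟩ := ha.2 i
    exact ⟨by simp [ha.1, a1], -m, by simp [ha.1, a1, a2, sg_zero]⟩⟩

theorem comm_t (h g : W) (hh : h.s = 0) (hs : g.s = 0) (he : ∀ i, Even (g.e i)) (i : ℤ) :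
    (h * g * h⁻¹ * g⁻¹).t i = (sg (h.e i) - 1) * g.t i := by
  rw [mul_t, conj_t _ _ hs he, conj_e _ _ hs]
  simp [hh, hs, sg_even (he _)]
  ring

theorem comm1 {h g : W} (hh : h ∈ S1) (h2 : g ∈ S2) (h3 : g ∈ S3) : h * g * h⁻¹ * g⁻¹ ∈ S0 := by
  have hh : h.s = 0 := hh
  refine ⟨by simp [hh, h2.1], fun i => ⟨by simp [hh, h2.1], ?_⟩⟩
  rw [comm_t _ _ hh h2.1 (S2.even h2)]
  obtain ⟨m, k, a1, a2⟩ := h3.2 i
  obtain ⟨l, a3⟩ := h2.2 i
  rcases sg_cases (h.e i) with e | e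
  · exact ⟨0, by simp [e]⟩
  · refine ⟨k - l, ?_⟩
    rw [e, a1, show m = 2 * (l - k) by omega]
    push_cast
    ring

theorem comm2 {h g : W} (hh : h.s = 0) (hs : g.s = 0) (h1 : ∀ i, Even (h.e i))
    (he : ∀ i, Even (g.e i)) : h * g * h⁻¹ * g⁻¹ ∈ S0 := by
  refine ⟨by simp [hh, hs], fun i => ⟨by simp [hh, hs], 0, ?_⟩⟩
  rw [comm_t _ _ hh hs he, sg_even (h1 _)]
  simp

def A : W := ⟨fun k => if 0 ≤ k then -2 ^ (-k - 2) else 0, fun k => if k = -1 then 1 else 0, 0⟩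
def B : W := ⟨0, 0, 1⟩

theorem A1 : A ∈ S1 := rfl

theorem A4 : A ^ 4 ∈ S2 := by
  refine ⟨by simp [pow_succ, A], fun i => ⟨A.e i, ?_⟩⟩
  simp [pow_succ, show A.s = 0 from rfl]
  ring

theorem A3 : B * A ^ 2 * B⁻¹ * (A ^ 4)⁻¹ ∈ S3 := by
  refine ⟨by simp [pow_succ, A], fun i => ?_⟩
  rcases lt_trichotomy i 0 with h | rfl | h
  · by_cases e : i = -1
    · subst e
      exact ⟨0, -1, by simp [pow_succ, A, B], by simp [pow_succ, A, B]⟩
    · refine ⟨0, 0, ?_, ?_⟩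
      · simp [pow_succ, A, B, show ¬ 0 ≤ i by omega, show ¬ 1 ≤ i by omega]
      · simp [pow_succ, A, B, e, show ¬ i - 1 = -1 by omega]
  · refine ⟨1, 0, ?_, by simp [pow_succ, A, B]⟩
    simp [pow_succ, A, B, sg_zero]
    norm_num [sg]
  · refine ⟨0, 0, ?_, ?_⟩
    · simp only [pow_succ, A, B, pow_zero, one_mul, mul_t, mul_e, mul_s, inv_t, inv_e, inv_s,
        show 0 ≤ i by omega, show 0 ≤ i - 1 by omega, show ¬ i = -1 by omega,
        show ¬ i - 1 = -1 by omega, sub_zero, add_zero, if_true, if_false, Pi.zero_apply, sg_zero,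
        add_neg_cancel, neg_zero]
      rw [show -(i - 1) - 2 = (-i - 2) + 1 by ring, zpow_add_one₀ (by norm_num)]
      simp
      ring
    · simp [pow_succ, A, B, show ¬ i = -1 by omega, show ¬ i - 1 = -1 by omega]

theorem notS0 : A ^ 4 * (B * A * B⁻¹) * (A ^ 4)⁻¹ * (B * A * B⁻¹)⁻¹ ∉ S0 := by
  rintro ⟨-, h⟩
  obtain ⟨-, m, h⟩ := h 0
  simp [pow_succ, A, B, sg_zero, sg_one] at h
  norm_num at h
  have : (-2 : ℤ) = 4 * m := by exact_mod_cast h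
  omega

end Pool.Agent.H.MP_d30538_al
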